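import Pool.Agent.Lib.MP_f92ad0_an.MepMain

/-! A Banach space with the extension property for every space of cotype 2 has type 2. -/

namespace Pool.Agent.Results.MP_f92ad0_an.MaureyConverse

universe u

/-- `X` has the extension property for `Z`: every operator from a closed subspace of `X`
to `Z` extends to an operator from `X` to `Z`. -/
def EP (𝕜 : Type) (X : Type u) (Z : Type) [RCLike 𝕜] [NormedAddCommGroup X] [NormedSpace 𝕜 X]
    [NormedAddCommGroup Z] [NormedSpace 𝕜 Z] : Prop :=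
  ∀ Y : Submodule 𝕜 X, IsClosed (Y : Set X) → ∀ g : Y →L[𝕜] Z,
    ∃ f : X →L[𝕜] Z, ∀ y : Y, f y = g y

/-- `X` has (Rademacher) type 2; the expectation is the average over all `2 ^ n` sign
patterns. -/
def HasType2 (X : Type u) [NormedAddCommGroup X] : Prop :=
  ∃ C : ℝ, ∀ (n : ℕ) (x : Fin n → X),
    √((∑ ε : Fin n → ℤˣ, ‖∑ i, (ε i : ℤ) • x i‖ ^ 2) / 2 ^ n) ≤ C * √(∑ i, ‖x i‖ ^ 2)

/-- `Z` has (Rademacher) cotype 2. -/
def HasCotype2 (Z : Type) [NormedAddCommGroup Z] : Prop :=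
  ∃ C : ℝ, ∀ (n : ℕ) (z : Fin n → Z),
    √(∑ i, ‖z i‖ ^ 2) ≤ C * √((∑ ε : Fin n → ℤˣ, ‖∑ i, (ε i : ℤ) • z i‖ ^ 2) / 2 ^ n)

open Pool.Agent.Lib.MP_f92ad0_an.Mep in
theorem result (𝕜 : Type) [RCLike 𝕜] (X : Type u) [NormedAddCommGroup X] [NormedSpace 𝕜 X]
    [CompleteSpace X]
    (h : ∀ (Z : Type) [NormedAddCommGroup Z] [NormedSpace 𝕜 Z] [CompleteSpace Z],
      HasCotype2 Z → EP 𝕜 X Z) :
    HasType2 X := by
  have key : ∀ (E : Type _) [NormedAddCommGroup E] (n : ℕ) (x : Fin n → E),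
      R2 x = (∑ ε : Fin n → ℤˣ, ‖∑ i, (ε i : ℤ) • x i‖ ^ 2) / 2 ^ n := fun E _ n x => by
    rw [R2, expect_eq_div, Fintype.card_fin]; rfl
  obtain ⟨C, hC⟩ := main (𝕜 := 𝕜) (X := X) fun Z _ _ _ hZ => h Z ⟨2, fun n z => by
    refine (hZ n z).trans (mul_le_mul_of_nonneg_left ((R1_le_sqrt_R2 z).trans (le_of_eq ?_))
      (by norm_num))
    rw [R2, expect_eq_div, Fintype.card_fin]; rfl⟩
  exact ⟨C, fun n x => by rw [← key X n x]; exact hC n x⟩

end Pool.Agent.Results.MP_f92ad0_an.MaureyConverse
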