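import Pool.Agent.Lib.MP_f92ad0_an.Compl

/-! A Banach space with the extension property for `ℓ₂` which does not have type 2. -/

namespace Pool.Agent.Results.MP_f92ad0_an.NotType2

/-- `X` has the extension property for `Z`: every operator from a closed subspace of `X`
to `Z` extends to an operator from `X` to `Z`. -/
def EP (𝕜 X Z : Type) [RCLike 𝕜] [NormedAddCommGroup X] [NormedSpace 𝕜 X]
    [NormedAddCommGroup Z] [NormedSpace 𝕜 Z] : Prop :=
  ∀ Y : Submodule 𝕜 X, IsClosed (Y : Set X) → ∀ g : Y →L[𝕜] Z,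
    ∃ f : X →L[𝕜] Z, ∀ y : Y, f y = g y

/-- `X` has (Rademacher) type 2; the expectation is the average over all `2 ^ n` sign
patterns. -/
def HasType2 (X : Type) [NormedAddCommGroup X] : Prop :=
  ∃ C : ℝ, ∀ (n : ℕ) (x : Fin n → X),
    √((∑ ε : Fin n → ℤˣ, ‖∑ i, (ε i : ℤ) • x i‖ ^ 2) / 2 ^ n) ≤ C * √(∑ i, ‖x i‖ ^ 2)

open Pool.Agent.Lib.MP_f92ad0_an in
theorem result (𝕜 : Type) [RCLike 𝕜] :
    ∃ (X : Type) (_ : NormedAddCommGroup X) (_ : NormedSpace 𝕜 X), CompleteSpace X ∧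
      EP 𝕜 X (lp (fun _ : ℕ => 𝕜) 2) ∧ ¬ HasType2 X := by
  refine ⟨UniformSpace.Completion (Sp 𝕜 FF), inferInstance, inferInstance, inferInstance,
    fun Y _ g => ext_rclike compl_uc compl_tail Y g, ?_⟩
  rintro ⟨C, hC⟩
  obtain ⟨n, x, hx, hε⟩ := exists_bad (𝕜 := 𝕜) (F := FF) (1 / (|C| + 1) ^ 2) (by positivity)
  rw [one_div_one_div] at hε
  have h1 : |C| + 1 ≤ √((∑ ε : Fin n → ℤˣ, ‖∑ i, (ε i : ℤ) • x i‖ ^ 2) / 2 ^ n) := by
    refine Real.le_sqrt_of_sq_le ?_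
    rw [le_div_iff₀ (by positivity)]
    refine le_trans (le_of_eq ?_) (Finset.sum_le_sum fun ε _ => hε ε)
    simp [Fintype.card_units_int, mul_comm]
  have h2 : C * √(∑ i, ‖x i‖ ^ 2) ≤ |C| :=
    (mul_le_mul_of_nonneg_right (le_abs_self C) (Real.sqrt_nonneg _)).trans
      (mul_le_of_le_one_right (abs_nonneg C) (Real.sqrt_le_one.2 hx))
  linarith [hC n x]

end Pool.Agent.Results.MP_f92ad0_an.NotType2
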